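import Pool.Agent.K3h47.NC.Swi

/-!
# Non-vanishing for manifolds commensurable with log canonical configurations of hypersurfaces

Let `F k`, `k = 0, ..., n`, be nonzero forms of degrees `d k ≥ 1` in `n + 1` variables without a
common zero in the projective `n`-space, such that the pair which consists of the projective space and
the sum `D` of the hypersurfaces `D k`, `F k = 0`, is log canonical (`IsLogCanonical`); for instance
smooth hypersurfaces with normal crossings (`normalCrossings_logCanonical` at the end of this file),
but the hypersurfaces may be singular: nodal curves, surfaces with ordinary double curves, triple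
points and pinch points or with simple elliptic singularities. For a prime divisor `Q` over the
projective space let `mult Q` be the vector of the multiplicities of the `D k` along `Q`; `Q` is an lc
place (`IsLcPlace`) if its log discrepancy with respect to `D` is zero, for instance a toroidal divisor
in the case of normal crossings.

Let `A` be a function of the multiplicities with finitely many values in `[0, 1]`, `A 0 = 1` and
`A (t v) ≤ t A v` for `t = 1, 2, ...`. It gives the boundary `Δ_A` with the coefficient
`1 - A (mult Q)` at `Q`, on all birational models of the projective space at once.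

**The varieties.** Let `X` be a normal projective variety of dimension `n`, for instance a manifold,
with function field `K`, and let `M` be a common finite extension of `K` and of the function field of
the projective space. A prime divisor `P'` of `M` lies over a prime divisor `P` of `K`, with the
ramification index `e`, and over a prime divisor `Q` over the projective space, with the ramification
index `e'`. The log discrepancies of the pull-backs to `M` are `e` for `X`, `e' A (mult Q)` for the
boundary `Δ_A`, and `e'` for the projective space without a boundary. We assume (`IsCommensurable`):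
`e' A (mult Q) ≤ e ≤ e'` for all prime divisors `P` of `X`, with equality on the left hand side if `Q`
is an lc place, and the log discrepancy of `X` is at least `e' A (mult Q) / e` for all `P` over `X`.
So `X` is log canonical, and the pull-back of `K_X` is between the ones of the canonical class of the
projective space and of `K + Δ_A`, and equal to the latter at the lc places. Examples:

* `X` is a manifold, or has canonical singularities, and is birational to an abelian cover `Y` of the
  projective space which is branched along the `D k` (`K = M`, `e = 1`, `A v = 1 / e'`);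
* `X` is a manifold with a finite etale cover which is birational to such a `Y`: quotients of the
  covers `Y` by groups of automorphisms which act freely (in codimension one, on suitable models);
  the automorphisms may permute the `D k` and need not commute with the Galois group of `Y`;
* `X` is a finite quotient of such a `Y` by a group with fixed divisors, with log canonical
  singularities; then `e > 1` over these divisors.

**The theorem.** Let the `polyhedron` be the set of the rational solutions `y` of
`∑ k, d k * y k = ∑ k, (d k - 1)` and `∑ k, v k * y k ≥ A v` for all vectors `v` of nonnegative integers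
which are not zero and not all positive. If it is not empty then `κ (X) = ν (X)` is the dimension of
the polyhedron. If it is empty then `κ (X) = -∞` and `K_X` is not pseudo-effective: for all effective
divisors `B` on `X` the divisors `m K_X + B` have only the section zero for all large `m`. So the
canonical bundle of the manifolds `X` of this kind is pseudo-effective if and only if it is
`ℚ`-effective, with an explicit criterion, and the Kodaira dimension is equal to the numerical
dimension and is given explicitly; it can be any number up to `n`.

This is a part of the theorem on pairs in `MP_bc213e_ag`, `LogCanonicalConfigurations`, where the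
proof is explained. The result `LogCanonicalBranching` of this problem is about the covers `Y` only,
with a bound for the least plurigenus which is not zero.

The definitions `NormalModel` (a normal projective variety, given by its generic point `y`),
`IsPrimeDivisor`, `Effective`, `Integral`, `h0`, `kodairaDim`, `numericalDim` are in
`Pool/Agent/Y172/Defs.lean`, `LogDisc` (the log discrepancy along `P` is at least `α`) in
`Pool/Agent/Y191/Disc.lean`, `LiesOn` in `Pool/Agent/Y174/BDefs.lean`.
-/

set_option autoImplicit false

open FF MvPolynomial Pool.Agent.W602.GT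
open Pool.Agent.Y172 (NormalModel Effective Integral IsPrimeDivisor kodairaDim numericalDim h0)
open Pool.Agent.Y191 (LogDisc)
open Pool.Agent.Y174 (LiesOn)

namespace Pool.Agent.Results.MP_813db1_ag.CommensurableWithConfigurations

section hypersurfaces

variable {n : ℕ} {L : Type} [Field L] [Algebra ℂ L]

/-- The minimal order at `Q` of the homogeneous coordinates `x`. -/
noncomputable def minOrd (x : Fin (n + 1) → L) (Q : Place ℂ L) : ℤ :=
  Finset.univ.inf' Finset.univ_nonempty fun l => Q.ord (x l)

/-- The multiplicities of the hypersurfaces `F k = 0` along the prime divisor `Q`. -/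
noncomputable def mult (F : Fin (n + 1) → MvPolynomial (Fin (n + 1)) ℂ) (d : Fin (n + 1) → ℕ)
    (x : Fin (n + 1) → L) (Q : Place ℂ L) (k : Fin (n + 1)) : ℕ :=
  (Q.ord (aeval x (F k)) - d k * minOrd x Q).toNat

/-- The form `Ω = det (x, dx, ..., dx)` of degree `n + 1`, a function of `n` vector fields. -/
noncomputable def Omega (x : Fin (n + 1) → L) (D : Fin n → Derivation ℂ L L) : L :=
  (Matrix.of fun i j => (Fin.cases (x j) (fun l => D l (x j)) i : L)).det

/-- The order at `Q` of the value of the form `Ω / ∏ k, F k` on the vector fields `D` (the
homogeneous coordinates being normalized so that their minimal order at `Q` is zero). -/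
noncomputable def logOrd (F : Fin (n + 1) → MvPolynomial (Fin (n + 1)) ℂ) (d : Fin (n + 1) → ℕ)
    (x : Fin (n + 1) → L) (Q : Place ℂ L) (D : Fin n → Derivation ℂ L L) : ℤ :=
  Q.ord (Omega x D) - (n + 1) * minOrd x Q - ∑ k, (mult F d x Q k : ℤ)

/-- The prime divisor `Q` is an lc place: the form `Ω / ∏ k, F k` has a pole along `Q`. -/
def IsLcPlace (F : Fin (n + 1) → MvPolynomial (Fin (n + 1)) ℂ) (d : Fin (n + 1) → ℕ)
    (x : Fin (n + 1) → L) (Q : Place ℂ L) : Prop :=
  ∃ D : Fin n → Derivation ℂ L L, (∀ c, DerReg Q (D c)) ∧ Omega x D ≠ 0 ∧ logOrd F d x Q D < 0

end hypersurfaces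

/-- The field of rational functions in `n` variables, the function field of the projective space. -/
abbrev RatFun (n : ℕ) : Type := FractionRing (MvPolynomial (Fin n) ℂ)

/-- The homogeneous coordinates of the generic point of the projective space. -/
noncomputable def generic (n : ℕ) (j : Fin (n + 1)) : RatFun n :=
  Fin.cases 1 (fun b => algebraMap _ _ (X b : MvPolynomial (Fin n) ℂ)) j

/-- The projective space with the sum of the hypersurfaces `F k = 0` is a log canonical pair: the
form `Ω / ∏ k, F k` has at most logarithmic poles at all prime divisors over the projective space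
(its values on logarithmic vector fields are regular). -/
def IsLogCanonical {n : ℕ} (F : Fin (n + 1) → MvPolynomial (Fin (n + 1)) ℂ)
    (d : Fin (n + 1) → ℕ) : Prop :=
  ∀ Q : Place ℂ (RatFun n), Divisorial n Q →
    ∀ D : Fin n → Derivation ℂ (RatFun n) (RatFun n), (∀ c, DerLog Q (D c)) →
      Omega (generic n) D = 0 ∨ 0 ≤ logOrd F d (generic n) Q D

/-- The hypersurfaces `F k = 0` have normal crossings: at every point of the projective space the
gradients of the forms `F k` which vanish at this point are linearly independent. -/
def NormalCrossings {n : ℕ} (F : Fin (n + 1) → MvPolynomial (Fin (n + 1)) ℂ) : Prop :=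
  ∀ x : Fin (n + 1) → ℂ, x ≠ 0 → LinearIndependent ℂ
    fun (k : {k // eval x (F k) = 0}) (l : Fin (n + 1)) => eval x (pderiv l (F k.1))

/-- `A` is a bound for the log discrepancies: a function of the multiplicities with finitely many
values, between `0` and `1`, `A 0 = 1` and `A (t v) ≤ t A v` for the vectors `v` which are not zero and
not all positive. -/
structure IsBound {n : ℕ} (A : (Fin (n + 1) → ℕ) → ℚ) : Prop where
  bounds : ∀ v, 0 ≤ A v ∧ A v ≤ 1
  zero : A 0 = 1
  finite : (Set.range A).Finite
  smul : ∀ v, v ≠ 0 → (∃ k, v k = 0) → ∀ t : ℕ, 1 ≤ t → A (t • v) ≤ t * A v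

/-- The exponents of the sections. -/
def polyhedron {n : ℕ} (d : Fin (n + 1) → ℕ) (A : (Fin (n + 1) → ℕ) → ℚ) :
    Set (Fin (n + 1) → ℚ) :=
  {y | ∑ k, (d k : ℚ) * y k = ∑ k, ((d k : ℚ) - 1) ∧
    ∀ v : Fin (n + 1) → ℕ, v ≠ 0 → (∃ k, v k = 0) → A v ≤ ∑ k, (v k : ℚ) * y k}

/-- The normal projective variety `X` with the generic point `y` and the function field `K` is
commensurable with the configuration of the hypersurfaces `F k = 0`, with the bound `A` for the log
discrepancies, by means of the common finite extension `M` of `K` and of the function field of the
projective space. -/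
structure IsCommensurable {n : ℕ} (F : Fin (n + 1) → MvPolynomial (Fin (n + 1)) ℂ)
    (d : Fin (n + 1) → ℕ) (A : (Fin (n + 1) → ℕ) → ℚ) {K : Type} [Field K] [Algebra ℂ K]
    (M : Type) [Field M] [Algebra ℂ M] [Algebra K M] [Algebra (RatFun n) M] {N : ℕ}
    (y : Fin (N + 1) → K) : Prop where
  normal : NormalModel y
  ram : ∀ P, IsPrimeDivisor y P → ∀ (P' : Place ℂ M) (Q : Place ℂ (RatFun n)) (e e' : ℕ),
    LiesOn P' P e → LiesOn P' Q e' →
      (e' : ℚ) * A (mult F d (generic n) Q) ≤ e ∧ e ≤ e' ∧
      (IsLcPlace F d (generic n) Q → (e : ℚ) = e' * A (mult F d (generic n) Q))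
  disc : ∀ P, Divisorial n P → ∀ (P' : Place ℂ M) (Q : Place ℂ (RatFun n)) (e e' : ℕ),
    LiesOn P' P e → LiesOn P' Q e' → LogDisc y n 0 P (e' * A (mult F d (generic n) Q) / e)

/-- `K_X` is not pseudo-effective: for all effective divisors `B`, the divisors `m K_X + B` have only
the section zero for large `m`. -/
def NotPseudoEffective {K : Type} [Field K] [Algebra ℂ K] {N : ℕ} (y : Fin (N + 1) → K) (n : ℕ) :
    Prop :=
  ∀ B, Effective y B → ∃ m₀ : ℕ, ∀ m : ℕ, m₀ ≤ m → h0 y n m (m • 0 + B) = 0

/-- **Non-vanishing.** Let `F k = 0` (`k = 0, ..., n`) be hypersurfaces of the projective `n`-space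
without a common point which form a log canonical pair with the projective space, `A` a bound for the
log discrepancies, and `X` a normal projective variety of dimension `n` which is commensurable with
this configuration. If the polyhedron is not empty then the Kodaira dimension and the numerical
dimension of `K_X` are equal to its dimension. If it is empty then the Kodaira dimension is `-∞` and
`K_X` is not pseudo-effective. -/
theorem result (n : ℕ) (hn : 1 ≤ n) (d : Fin (n + 1) → ℕ) (hd : ∀ k, 1 ≤ d k)
    (F : Fin (n + 1) → MvPolynomial (Fin (n + 1)) ℂ) (hF : ∀ k, (F k).IsHomogeneous (d k))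
    (hF0 : ∀ k, F k ≠ 0) (hF1 : ∀ x : Fin (n + 1) → ℂ, x ≠ 0 → ∃ k, eval x (F k) ≠ 0)
    (hlc : IsLogCanonical F d) (A : (Fin (n + 1) → ℕ) → ℚ) (hA : IsBound A)
    {K M : Type} [Field K] [Field M] [Algebra ℂ K] [Algebra ℂ M] [Algebra K M]
    [Algebra (RatFun n) M] [IsScalarTower ℂ K M] [IsScalarTower ℂ (RatFun n) M]
    [FiniteDimensional K M] [FiniteDimensional (RatFun n) M] {N : ℕ} {y : Fin (N + 1) → K}
    (hy : IsCommensurable F d A M y) :
    ((polyhedron d A).Nonempty →
      kodairaDim y n 0 = (Module.finrank ℚ (vectorSpan ℚ (polyhedron d A)) : WithBot ℕ) ∧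
      ∀ B, Effective y B → Integral y B →
        numericalDim y n 0 B = (Module.finrank ℚ (vectorSpan ℚ (polyhedron d A)) : EReal)) ∧
    (polyhedron d A = ∅ → kodairaDim y n 0 = ⊥ ∧ NotPseudoEffective y n) := by
  obtain ⟨h1, h2⟩ := Pool.Agent.K3h47.NC.config_btw (K := K) (M := M) hn d hd F hF hF0 hF1 hlc A
    hA.bounds hA.zero hA.finite hA.smul (y := y) (Δ := 0)
    ⟨hy.normal, ⟨fun _ _ => le_rfl, by simp⟩, fun P hP P' Q e e' h1 h2 => by
      obtain ⟨h3, h4, h5⟩ := hy.ram P hP P' Q e e' h1 h2
      rw [Pi.zero_apply, sub_zero, mul_one]
      exact ⟨h3, by exact_mod_cast h4, h5⟩, hy.disc⟩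
  exact ⟨fun h => h1 h, fun h => ⟨(h2 h).1, fun B hB => ((h2 h).2 B hB).1⟩⟩

/-- Smooth hypersurfaces with normal crossings have no common point and form a log canonical pair with
the projective space. -/
theorem normalCrossings_logCanonical {n : ℕ} {d : Fin (n + 1) → ℕ}
    {F : Fin (n + 1) → MvPolynomial (Fin (n + 1)) ℂ} (hF : ∀ k, (F k).IsHomogeneous (d k))
    (hs : NormalCrossings F) : (∀ k, F k ≠ 0) ∧
      (∀ x : Fin (n + 1) → ℂ, x ≠ 0 → ∃ k, eval x (F k) ≠ 0) ∧ IsLogCanonical F d :=
  Pool.Agent.K3h47.NC.snc_final hF hs

end Pool.Agent.Results.MP_813db1_ag.CommensurableWithConfigurations
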