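import Pool.Agent.K3h47.IM.Fin

/-!
# Non-vanishing for the images of abelian covers of projective space branched along log canonical
hypersurfaces

Let `F k`, `k = 1, ..., q`, be nonzero forms of degrees `d k` in `n + 1` variables, `n ≥ 1`, such that
the pair which consists of the projective `n`-space and the sum of the hypersurfaces `F k = 0` is log
canonical (`LogCanonical`). The number of the hypersurfaces and their intersections are arbitrary and
they may be singular: arrangements of lines with double points, of curves with nodes, any divisor with
normal crossings, surfaces with pinch points or simple elliptic singularities. Let `V` be an abelian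
cover of the projective space which is branched along these hypersurfaces: the function field `K` of
`V` is generated by the coordinates `x 0 = 1, x 1, ..., x n` and by roots `z j`,
`z j ^ (m j) = ∏ k, F k (x) ^ (a j k)`.

Let `W` be any smooth projective variety with a dominant rational map `V ⇢ W` of degree `r`; nothing
is assumed about the map or about `W`: `W` may be a resolution of `V` or of a quotient of `V` by any
group, but `W` need not be a quotient, and the ramification is arbitrary.

A monomial `∏ j, z j ^ (c j)` spans an eigenspace of the Galois group of `V` over the projective space.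
The twisted sum `degree d m a c`, the sum of the numbers `d k * {- ∑ j, c j * a j k / m j}` (fractional
parts), is the degree of the branch divisor weighted by this eigenspace: the canonical forms on `V` in
this eigenspace are the products of one form with the polynomials of degree at most
`⌊degree⌋ - n - 1` (if the `D k` have normal crossings), and we use only those. `Branched s` is the
condition that every nontrivial cyclic group of eigenspaces contains a nontrivial one with
`degree ≥ n + s`. For the cyclic covers `z ^ m = F(x)`, `m` prime, branched along one hypersurface of
degree `d` it is `d (m - 1) / m ≥ n + s`, and for all `m` the condition `d / 2 ≥ n + s` is enough.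

**Theorem.** If `Branched r` holds, then these are equivalent: `p_g(W) = 0`; `κ(W) = -∞`; `K_W` is not
pseudo-effective; `W` is uniruled; `W` is unirational; `V ⇢ W` factors through the projective space. If
`Branched (2 r)` holds then they are also equivalent to: `W` is not of general type. So if `K_W` is
pseudo-effective, then even `p_g(W) > 0`.

Proof. Let `E = ℂ(x)` be the function field of the projective space, `L` the one of `W`, and `F` the
field which is generated by `E` and `L` in `K`. If `F` is not `E` then it contains a monomial which is
not in `E`, by Kummer theory, and `Branched` gives canonical forms `A(x) ω` on `V` with `ω` in the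
corresponding eigenspace, for all forms `A` of degree `r - 1`, whose traces to `F` are not zero. They
are regular because the pair is log canonical, which is inherited by the pair of `V` and the preimages
of the `D k` (`logCQ_up`). If `p_g(W) = 0` then the traces of `A(x) ω` to `L` vanish, so that the
conjugates over `L` of the generic point of the projective space do not impose independent conditions
on the forms of degree `r - 1`, but there are at most `r` conjugates; this criterion (`over_uniruled`)
is in the starting files, which contain the case of the smooth covers in `ImagesOfCovers`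
(`MP_e06174_ag`).

The function-field language of the starting repository is used: a canonical form (`IsPluri 1`) on a
variety of dimension `n` is a function of `n` rational vector fields; it is regular at the prime
divisor `P` (`Place`, `Divisorial`, `RegAt`) if its value on vector fields which are regular at `P` is
regular at `P`. `KodGe ℂ L n (fun _ => False) 0` says that `κ(W) ≥ 0`, `Psef ℂ L n (fun _ => False)`
that `K_W` is pseudo-effective, `GeneralType ℂ L n` that `W` is of general type (`Pool/Agent/W602/GT`),
`IsUniruled ℂ L n` that `W` is uniruled (`Pool/Agent/W619/PQ/Defs.lean`).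
-/

set_option autoImplicit false

open FF MvPolynomial Pool.Agent.W602.GT
open Pool.Agent.W619.PQ (IsUniruled)

namespace Pool.Agent.Results.MP_813db1_ag.ImagesOfAbelianCovers

section hypersurfaces

variable {n q : ℕ} {K : Type} [Field K] [Algebra ℂ K]

/-- The minimal order at `P` of the homogeneous coordinates `x`. -/
noncomputable def minOrd (x : Fin (n + 1) → K) (P : Place ℂ K) : ℤ :=
  Finset.univ.inf' Finset.univ_nonempty fun l => P.ord (x l)

/-- The multiplicities of the hypersurfaces `F k = 0` along the prime divisor `P`. -/
noncomputable def mult (F : Fin q → MvPolynomial (Fin (n + 1)) ℂ) (d : Fin q → ℕ)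
    (x : Fin (n + 1) → K) (P : Place ℂ K) (k : Fin q) : ℕ :=
  (P.ord (aeval x (F k)) - d k * minOrd x P).toNat

/-- The form `Ω = det (x, dx, ..., dx)` of degree `n + 1`, a function of `n` vector fields. -/
noncomputable def Omega (x : Fin (n + 1) → K) (D : Fin n → Derivation ℂ K K) : K :=
  (Matrix.of fun i j => (Fin.cases (x j) (fun l => D l (x j)) i : K)).det

/-- The order at `P` of the value of the form `Ω / ∏ k, F k` on the vector fields `D` (the
homogeneous coordinates being normalized so that their minimal order at `P` is zero). -/
noncomputable def logOrd (F : Fin q → MvPolynomial (Fin (n + 1)) ℂ) (d : Fin q → ℕ)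
    (x : Fin (n + 1) → K) (P : Place ℂ K) (D : Fin n → Derivation ℂ K K) : ℤ :=
  P.ord (Omega x D) - (n + 1) * minOrd x P - ∑ k, (mult F d x P k : ℤ)

/-- The homogeneous coordinates of the generic point of the projective space. -/
noncomputable def generic (n : ℕ) (j : Fin (n + 1)) : FractionRing (MvPolynomial (Fin n) ℂ) :=
  Fin.cases 1 (fun b => algebraMap _ _ (X b : MvPolynomial (Fin n) ℂ)) j

/-- The projective space with the sum of the hypersurfaces `F k = 0` is a log canonical pair: the
form `Ω / ∏ k, F k` has at most logarithmic poles at all prime divisors over the projective space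
(its values on logarithmic vector fields are regular). -/
def LogCanonical (F : Fin q → MvPolynomial (Fin (n + 1)) ℂ) (d : Fin q → ℕ) : Prop :=
  ∀ P : Place ℂ (FractionRing (MvPolynomial (Fin n) ℂ)), Divisorial n P →
    ∀ D : Fin n → Derivation ℂ (FractionRing (MvPolynomial (Fin n) ℂ))
      (FractionRing (MvPolynomial (Fin n) ℂ)), (∀ c, DerLog P (D c)) →
      Omega (generic n) D = 0 ∨ 0 ≤ logOrd F d (generic n) P D

end hypersurfaces

section cover

variable {n q R : ℕ} {K : Type} [Field K] [Algebra ℂ K]

/-- `K` is the function field of an abelian cover of the projective `n`-space: it has the dimension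
`n` and is generated by the coordinates `x 0 = 1, x 1, ..., x n` and by the roots `z j`,
`z j ^ (m j) = ∏ k, F k (x) ^ (a j k)`. -/
structure IsAbelianCover (F : Fin q → MvPolynomial (Fin (n + 1)) ℂ) (m : Fin R → ℕ)
    (a : Fin R → Fin q → ℕ) (x : Fin (n + 1) → K) (z : Fin R → K) : Prop where
  one : x 0 = 1
  root : ∀ j, z j ^ m j = ∏ k, aeval x (F k) ^ a j k
  gen : IntermediateField.adjoin ℂ (Set.range x ∪ Set.range z) = ⊤
  dim : Algebra.trdeg ℂ K = n

/-- The degree of the branch divisor weighted by the eigenspace of the monomial `∏ j, z j ^ (c j)`. -/
def degree (d : Fin q → ℕ) (m : Fin R → ℕ) (a : Fin R → Fin q → ℕ) (c : Fin R → ℕ) : ℚ :=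
  ∑ k, (d k : ℚ) * Int.fract (-∑ j, (c j : ℚ) * a j k / m j)

/-- For every monomial `∏ j, z j ^ (c j)` which is not a rational function of `x` there is a power
with the exponent `t` which is not a rational function of `x` and for which the weighted degree of the
branch divisor is at least `n + s`. -/
def Branched (d : Fin q → ℕ) (m : Fin R → ℕ) (a : Fin R → Fin q → ℕ) (x : Fin (n + 1) → K)
    (z : Fin R → K) (s : ℕ) : Prop :=
  ∀ c : Fin R → ℕ, (∏ j, z j ^ c j) ∉ IntermediateField.adjoin ℂ (Set.range x) →
    ∃ t : ℕ, (∏ j, z j ^ (t * c j)) ∉ IntermediateField.adjoin ℂ (Set.range x) ∧
      (n + s : ℚ) ≤ degree d m a fun j => t * c j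

end cover

section

variable (L : Type) [Field L] [Algebra ℂ L] (n : ℕ)

/-- The geometric genus is zero: the only canonical form which is regular at all prime divisors is
`0`. -/
def GenusZero : Prop :=
  ∀ ω : (Fin n → Derivation ℂ L L) → L, IsPluri 1 ω →
    (∀ P : Place ℂ L, Divisorial n P → RegAt P ω) → ∀ D, ω D = 0

/-- The varieties of dimension `n` with function field `L` are unirational: `L` embeds into the
field of rational functions in `n` variables. -/
def IsUnirational : Prop :=
  Nonempty (L →ₐ[ℂ] FractionRing (MvPolynomial (Fin n) ℂ))

/-- The map `V ⇢ W` factors through the projective space: all elements of `L` are rational functions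
of `x`. -/
def FactorsThrough {K : Type} [Field K] [Algebra ℂ K] [Algebra L K] (x : Fin (n + 1) → K) : Prop :=
  ∀ f : L, algebraMap L K f ∈ IntermediateField.adjoin ℂ (Set.range x)

end

/-- **Images of abelian covers.** Let `F k = 0`, `k = 1, ..., q`, be hypersurfaces of the projective
`n`-space which form a log canonical pair with it, `V` an abelian cover (with function field `K`) of
the projective space branched along these hypersurfaces, and `V ⇢ W` a dominant rational map of
degree `r` to a smooth projective variety with function field `L`. If `Branched r` holds then
`p_g(W) = 0` if and only if `κ(W) = -∞`, if and only if `K_W` is not pseudo-effective, if and only if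
`W` is uniruled, if and only if `W` is unirational, if and only if `V ⇢ W` factors through the
projective space. If `Branched (2 r)` holds then `W` is not of general type if and only if `V ⇢ W`
factors through the projective space. -/
theorem result {n q R : ℕ} (hn : 1 ≤ n) {F : Fin q → MvPolynomial (Fin (n + 1)) ℂ} {d : Fin q → ℕ}
    (hF : ∀ k, (F k).IsHomogeneous (d k)) (hF0 : ∀ k, F k ≠ 0) (hlc : LogCanonical F d)
    {m : Fin R → ℕ} (hm : ∀ j, 0 < m j) {a : Fin R → Fin q → ℕ}
    {K : Type} [Field K] [Algebra ℂ K] {x : Fin (n + 1) → K} {z : Fin R → K}
    (hV : IsAbelianCover F m a x z)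
    (L : Type) [Field L] [Algebra ℂ L] [Algebra L K] [IsScalarTower ℂ L K]
    [FiniteDimensional L K] :
    (Branched d m a x z (Module.finrank L K) →
      [GenusZero L n, ¬ KodGe ℂ L n (fun _ => False) 0, ¬ Psef ℂ L n (fun _ => False),
        IsUniruled ℂ L n, IsUnirational L n, FactorsThrough L n x].TFAE) ∧
    (Branched d m a x z (2 * Module.finrank L K) →
      (¬ GeneralType ℂ L n ↔ FactorsThrough L n x)) :=
  Pool.Agent.K3h47.IM.final hn hF hF0 hlc hm hV.one hV.root hV.gen hV.dim L

end Pool.Agent.Results.MP_813db1_ag.ImagesOfAbelianCovers
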