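import Pool.Agent.K3h50.MF.Fin
import Pool.Agent.Y191.CycNv
import Pool.Agent.Y191.CycLow4

/-!
# Nonvanishing for fibre products of superelliptic families over a base with many powerful members

Let `X` be a projective manifold (or a projective variety with canonical singularities) and `|V|` a
linear system on `X` without fixed components, of dimension `n`, whose rational map has an image `Y` of
any dimension `d`, an arbitrary nondegenerate subvariety of `n`-dimensional projective space; the
general fibres of `X ⇢ Y` may have any dimension `e = dim X - d`. Suppose: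

* (the base) `D i` (`i < q`) are finitely many members of `|V|`, in arbitrary position, with
  rational weights `β i ≥ 0` such that the members in a proper linear subsystem, given by a subspace
  `F` of `V`, have total weight at most `dim F` (for members in general position: `β i = 1`); with
  `G` groups of members, each of which spans `V`, such that at most `γ G dim F` of the groups meet a
  given proper subsystem `F` (in general position: `γ = 1 / G`, for `G` disjoint groups of `n + 1`
  members; always: `G = 1`, `γ = 1`); and with rational numbers `0 ≤ t i ≤ 1` such that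
  `∑ β i (t i) = n + 1`; for all `i` and all prime divisors `P` of `X` which are components of `D i`

  `(1 - t i) mult_P (D i) ≥ σ`,   `σ ≥ (n - d + 1) (1 + γ (n - d) / 2)`;

* (the fibres) let `F` be the algebraic closure of `ℂ(Y)` in `ℂ(X)`, the function field of the
  normalization `Y'` of `Y` in `X`; `X` is birational to the fibre product over `Y'` of `e` arbitrary
  cyclic covers of `Y' × P^1`, that is `ℂ(X)` is generated over `F` by `x j`, `z j`, `j < e`, the `x j`
  are algebraically independent over `F` and

  `z j ^ m j = c j * ∏ k, g j k (x j) ^ a j k`, `m j ≥ 1`, `a j k ≥ 0`, `c j ≠ 0` in `F`,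

  where the `g j k` are polynomials over `F`, `g j k` of degree `d j k`, square free and pairwise
  without common roots (for given `j`). The moduli of the curves, and their monodromy, are arbitrary.

Let `W j = ∑ k, d j k * (1 - gcd (m j, a j k) / m j) + 1 - gcd (m j, ∑ k, a j k * d j k) / m j`; if `C j`
is the curve over `F` given by the `j`-th equation, of genus `g j`, and of degree `n j` over the line,
then `2 g j - 2 = n j * (W j - 2)`. The theorem: the canonical divisor of `X` is pseudo-effective if
and only if `κ(X) ≥ 0`, if and only if `W j ≥ 2` (`g j ≥ 1`) for all `j`; then `κ(X)` is at least the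
number `l` of the `j` with `W j > 2` (`g j ≥ 2`). If moreover `σ` is greater than the bound and the
`t i` are less than `1`, then `κ(X) = ν(X) = d + l`. All these properties are birationally invariant,
so that nonvanishing holds for all compact complex manifolds which are bimeromorphic to such an `X`
(these are manifolds in class `C`).

For members in general position the condition on the base is `∑ max (0, 1 - σ / μ i) ≥ n + 1`, where
`μ i` is the smallest multiplicity of a component of `D i`; the bound for `σ` tends to the truncation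
level `n - d + 1` if the number of members tends to infinity (and it is `1` if `d = n`). The base of
the starting file `SuperellipticNonvanishing` consists of hyperplanes in general position which
impose independent conditions on the forms of some degree `D`, with the larger truncation level
`(n - d + D).choose (n - d)`. Here the members are arbitrary, and the linear system may be any.

The language and the definitions of `Pool.Agent.Y172` are used: `X` is given by the homogeneous
coordinates `y` of its generic point, with values in the function field `K` of `X`; the prime divisors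
of `X` are places `P` of `K`, `P.ord` is the order along `P`. The linear system is given by the finite
dimensional space `V` of rational functions: if `a` is the minimum of the orders at `P` of the
members of `V` then the multiplicity of `P` in the divisor of the system which is given by `f ∈ V` is
`P.ord f - a`.

Proof. The form of the base is a power of the product of `G` generalised Wronskians divided by a
product of powers of the members (`Pool.Agent.K3h50.MF.pm_fib`). It is multiplied by forms along the
fibres: over the splitting field of the `g j k` the products of powers of determinants of logarithmic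
derivatives of the `x j - b`, `b` a root, and their symmetric functions (`cyc_low`); here the field
`F` is the algebraic closure of the field of quotients of members. The upper bounds are `cyc_can`,
`cyc_nv` of the starting repository.
-/

set_option autoImplicit false

open FF Pool.Agent.W602.GT Pool.Agent.Y172 Pool.Agent.Y191 Pool.Agent.TH585.SV Pool.Agent.W619.PQ
  Pool.Agent.W603.LV

namespace Pool.Agent.Results.MP_813db1_ag.PowerfulMembers

section

variable {K : Type} [Field K] [Algebra ℂ K] {N q G : ℕ}

/-- `X` is a projective variety of dimension `n` with canonical singularities (for instance a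
projective manifold), `y` is its generic point. -/
def IsCanonicalVariety (y : Fin (N + 1) → K) (n : ℕ) : Prop :=
  NormalModel y ∧ Algebra.trdeg ℂ K = n ∧ Canonical y n

/-- The function field of the image of the rational map which is given by the linear system `V`: the
field generated by the quotients of the members. -/
noncomputable def imageField (V : Submodule ℂ K) : IntermediateField ℂ K :=
  IntermediateField.adjoin ℂ {z : K | ∃ f ∈ V, ∃ g ∈ V, z = f / g}

open Classical in
/-- The weights `β i` of the members `φ i` of `V`: they are not negative and the members in a proper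
subspace `F` of `V` have total weight at most `dim F`. -/
def Weights (V : Submodule ℂ K) (φ : Fin q → K) (β : Fin q → ℚ) : Prop :=
  (∀ i, 0 ≤ β i) ∧ ∀ F : Submodule ℂ K, F < V →
    ∑ i ∈ Finset.univ.filter (fun i => φ i ∈ F), β i ≤ Module.finrank ℂ F

open Classical in
/-- The groups `A s` (`s < G`) of members of `V`: each group spans `V`, and a proper subspace `F` of
`V` contains members from at most `γ G dim F` of the groups. -/
def Groups (V : Submodule ℂ K) (φ : Fin q → K) (A : Fin G → Finset (Fin q)) (γ : ℝ) : Prop :=
  (∀ s, Submodule.span ℂ (φ '' (A s : Set (Fin q))) = V) ∧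
  ∀ F : Submodule ℂ K, F < V →
    ((Finset.univ.filter (fun s => ∃ i ∈ A s, φ i ∈ F)).card : ℝ) ≤
      γ * G * Module.finrank ℂ F

/-- The bound `(n - d + 1) (1 + γ (n - d) / 2)`. -/
noncomputable def bound (d n : ℕ) (γ : ℝ) : ℝ :=
  ((n : ℝ) - d + 1) * (1 + γ * ((n : ℝ) - d) / 2)

/-- The condition on the multiplicities: if the prime divisor `P` of `X` is a component of the divisor
`D i` (the order of `φ i` at `P` is not the minimum `a` of the orders of the members of `V`), then
`σ` is at most `(1 - t i)` times the multiplicity of `P` in `D i`. -/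
def Powerful (y : Fin (N + 1) → K) (V : Submodule ℂ K) (φ : Fin q → K) (t : Fin q → ℚ)
    (σ : ℝ) : Prop :=
  ∀ P, IsPrimeDivisor y P → ∀ a : ℤ, (∀ f ∈ V, f = 0 ∨ a ≤ P.ord f) →
    (∃ f ∈ V, f ≠ 0 ∧ P.ord f = a) → ∀ i, P.ord (φ i) ≠ a →
      σ ≤ (1 - (t i : ℝ)) * ((P.ord (φ i) - a : ℤ) : ℝ)

/-- Let `F` be the algebraic closure of `L` in `K`. The field `K` is generated over `F` by elements
`x j`, `z j` with `z j ^ m j = c j * ∏ k, g j k (x j) ^ a j k`, where the `x j` are algebraically
independent over `F`, `m j ≥ 1`, `c j` is a nonzero element of `F`, and the `g j k` are polynomials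
over `F` of degree `d j k`, square free and pairwise without common roots for given `j`. -/
def CyclicFibres (L : IntermediateField ℂ K) {e : ℕ} (m s : Fin e → ℕ)
    (d a : ∀ j, Fin (s j) → ℕ) : Prop :=
  ∃ (x z c : Fin e → K) (g : ∀ j, Fin (s j) → Polynomial (acl ℂ (L : Set K))),
    CycData (acl ℂ (L : Set K)) x z m s g a c ∧ ∀ j k, (g j k).natDegree = d j k

/-- `K_X` is pseudo-effective: for some effective divisor `A` there are infinitely many `m` such that
`m K_X + A` has a nonzero section. -/
def PseudoEffective (y : Fin (N + 1) → K) (n : ℕ) : Prop :=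
  ∃ A : Place ℂ K → ℚ, Effective y A ∧
    ∀ m₁ : ℕ, ∃ m, m₁ ≤ m ∧ ∃ ω, IsSection y n m A ω ∧ ω ≠ 0

end

/-- `W = ∑ k, d k * (1 - gcd (m, a k) / m) + 1 - gcd (m, ∑ k, a k * d k) / m` -/
def weight (m : ℕ) {s : ℕ} (d a : Fin s → ℕ) : ℚ :=
  ∑ k, d k * (1 - (m.gcd (a k) : ℚ) / m) + (1 - (m.gcd (∑ k, a k * d k) : ℚ) / m)

/-- the number of the `j` with `W j > 2` -/
def big {e : ℕ} (W : Fin e → ℚ) : ℕ := (Finset.univ.filter fun j => 2 < W j).card

section

variable {K : Type} [Field K] [Algebra ℂ K] {N : ℕ}

/-- `K_X` is pseudo-effective if and only if `κ(X) ≥ 0`, if and only if all `W j` are at least `2`, and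
then the Kodaira dimension is at least the number of the `j` with `W j > 2`. -/
def Nonvanishing (y : Fin (N + 1) → K) (n : ℕ) {e : ℕ} (W : Fin e → ℚ) : Prop :=
  (PseudoEffective y n ↔ 0 ≤ kodairaDim y n 0) ∧
  (0 ≤ kodairaDim y n 0 ↔ ∀ j, 2 ≤ W j) ∧
  (0 ≤ kodairaDim y n 0 → ((big W : ℕ) : WithBot ℕ) ≤ kodairaDim y n 0)

/-- If `κ(X) ≥ 0` then the Kodaira dimension is `d + big W`, and this is also the numerical dimension
of `K_X` (with respect to any effective integral divisor `A`). -/
def Dimensions (y : Fin (N + 1) → K) (n d : ℕ) {e : ℕ} (W : Fin e → ℚ) : Prop :=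
  0 ≤ kodairaDim y n 0 → kodairaDim y n 0 = ((d + big W : ℕ) : WithBot ℕ) ∧
    ∀ A, Effective y A → Integral y A → numericalDim y n 0 A = ((d + big W : ℕ) : EReal)

end

theorem wsum_eq {K : Type} [Field K] [Algebra ℂ K] {F : IntermediateField ℂ K} {e : ℕ}
    {m s : Fin e → ℕ} {g : ∀ j, Fin (s j) → Polynomial F} {a d : ∀ j, Fin (s j) → ℕ}
    (hd : ∀ j k, (g j k).natDegree = d j k) (j : Fin e) :
    wsum m s g a j = weight (m j) (d j) (a j) := by
  unfold wsum weight wtc
  simp only [hd]

/-- the number of large weights -/
theorem exists_idx {e : ℕ} (W : Fin e → ℚ) :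
    ∃ κ : Fin (big W) → Fin e, Function.Injective κ ∧ ∀ i, 2 < W (κ i) := by
  classical
  let φ := (Finset.univ.filter fun j => 2 < W j).equivFin
  exact ⟨fun i => (φ.symm i : Fin e), fun a b hab => φ.symm.injective (Subtype.ext hab),
    fun i => (Finset.mem_filter.1 (φ.symm i).2).2⟩

/-- divisors with sections are pseudo-effective -/
theorem psef_of {K : Type} [Field K] [Algebra ℂ K] {N n : ℕ} {y : Fin (N + 1) → K}
    (h : 0 ≤ kodairaDim y n 0) : PseudoEffective y n := by
  have h00 : Effective y (0 : Place ℂ K → ℚ) := ⟨fun _ _ => le_rfl, by simp⟩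
  refine ⟨0, h00, ?_⟩
  by_contra hcon
  have h1 := (not_psef (y := y) (n := n) (Δ := 0) h00 (by simpa using hcon)).1
  rw [h1] at h
  exact absurd h (by simp)

/-- If some `W j` is less than `2` then `m K_X + A` has no sections for large `m`. -/
theorem cyc_zero {K : Type} [Field K] [Algebra ℂ K] {F : IntermediateField ℂ K} {e N n : ℕ}
    {x y : Fin e → K} {m s : Fin e → ℕ} {g : ∀ j, Fin (s j) → Polynomial F}
    {a : ∀ j, Fin (s j) → ℕ} {c : Fin e → K} {z : Fin (N + 1) → K}
    (hz : NormalModel z) (hn : Algebra.trdeg ℂ K = n) (hcan : Canonical z n)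
    (hF : Closed F) (h : CycData F x y m s g a c) {A' : Place ℂ K → ℚ}
    (hA' : Effective z A') {j0 : Fin e} (hj0 : wsum m s g a j0 < 2) :
    ∃ m0 : ℕ, ∀ m', m0 ≤ m' → ∀ ω, Pool.Agent.Y172.IsSection z n m' A' ω → ω = 0 := by
  classical
  have hch : CharZero F := charZero_of_injective_algebraMap (algebraMap ℂ F).injective
  obtain ⟨p, z', e', D, hFr⟩ := exists_FrF hn hF h.bas
  exact zero_can (A := A') hz hcan hA' hn hFr h.phic_ne
    (fun P G hG hP n _ => h.cyc_fin hG hP n) (Finset.mem_singleton_self j0)
    (fun P => (∑ j, ∑ k, (g j k).natDegree) * ∑ i, (P.ord (x i)).natAbs)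
    (τ := ((2 - wsum m s g a j0 : ℚ) : ℝ)) (by
      have : (0 : ℚ) < 2 - wsum m s g a j0 := by linarith
      exact_mod_cast this)
    (fun P ρ hρ hP n _ => h.cyc_inf hρ hP n)

/-- **Nonvanishing.** Let `X` be a projective variety with canonical singularities of dimension
`d + e`, `V` a linear system of dimension `n` on `X` whose map has an image of dimension `d ≤ n`, `φ i`
nonzero members with weights `β i` and `G` groups of members, `0 ≤ t i ≤ 1` with
`∑ β i (t i) = n + 1`, and `(1 - t i) mult_P (D i) ≥ σ` for all prime divisors `P` which are components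
of `D i`, where `σ ≥ (n - d + 1) (1 + γ (n - d) / 2)`. Let `X` be birational to a fibre product of `e`
cyclic covers as in `CyclicFibres`. Then `K_X` is pseudo-effective if and only if `κ(X) ≥ 0`, if and
only if `W j ≥ 2` for all `j`, and then `κ(X)` is at least the number `l` of the `j` with `W j > 2`. If
`σ` is greater than the bound and the `t i` are less than `1` then moreover `κ(X) = ν(X) = d + l`. -/
theorem result (d n q G : ℕ) (hdn : d ≤ n) (hG : 1 ≤ G) (β t : Fin q → ℚ)
    (ht0 : ∀ i, 0 ≤ t i) (ht1 : ∀ i, t i ≤ 1) (hβt : ∑ i, β i * t i = n + 1) (γ σ : ℝ)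
    (hγ : 0 ≤ γ) (hσ : bound d n γ ≤ σ) (K : Type) [Field K] [Algebra ℂ K] (N e : ℕ)
    (m s : Fin e → ℕ) (dg a : ∀ j, Fin (s j) → ℕ) (y : Fin (N + 1) → K)
    (hy : IsCanonicalVariety y (d + e))
    (V : Submodule ℂ K) (hV : Module.finrank ℂ V = n + 1)
    (hd : Algebra.trdeg ℂ (imageField V) = d)
    (φ : Fin q → K) (hφ0 : ∀ i, φ i ≠ 0) (hφV : ∀ i, φ i ∈ V) (hβ : Weights V φ β)
    (A : Fin G → Finset (Fin q)) (hA : Groups V φ A γ) (h : Powerful y V φ t σ)
    (hF : CyclicFibres (imageField V) m s dg a) :
    Nonvanishing y (d + e) (fun j => weight (m j) (dg j) (a j)) ∧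
      (bound d n γ < σ → (∀ i, t i < 1) →
        Dimensions y (d + e) d fun j => weight (m j) (dg j) (a j)) := by
  classical
  obtain ⟨x, z, c, g, hc, hdg⟩ := hF
  obtain ⟨W, hW⟩ : ∃ W : Fin e → ℚ, W = fun j => weight (m j) (dg j) (a j) := ⟨_, rfl⟩
  rw [← hW]
  have hwW : ∀ j, wsum m s g a j = W j := fun j => by rw [hW]; exact wsum_eq hdg j
  obtain ⟨hc1, hc2⟩ := cyc_can hy.1 hy.2.1 hy.2.2
    (acl_closed ((imageField V : IntermediateField ℂ K) : Set K)) hc
  simp only [hwW] at hc1 hc2
  obtain ⟨κ, hκ, hκs⟩ := exists_idx W
  -- the lower bounds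
  have key : (∀ j, 2 ≤ W j) →
      KodairaGe (d + e) {P | IsPrimeDivisor y P} (fun _ => 0) (big W) ∧
      (bound d n γ < σ → (∀ i, t i < 1) →
        KodairaGe (d + e) {P | IsPrimeDivisor y P} (fun _ => 0) (d + big W)) := fun hws => by
    obtain ⟨M, hM, θ, hθ, hne⟩ := cyc_low (N := d + e) hc
      (fun j => by rw [hwW]; exact hws j) hκ (fun i => by rw [hwW]; exact hκs i)
      {P | IsPrimeDivisor y P}
    exact Pool.Agent.K3h50.MF.pm_fib (k := n - d) (δ₁ := fun _ => 0) (δ₂ := fun _ => 0)
      (δ := fun _ => 0) (by omega) hG ht0 ht1 hβt hγ hσ hy.2.1 hV hd hφ0 hφV hβ hA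
      (fun P _ => le_rfl) (fun P _ => by simp)
      (fun P hP _ a ha hex i hi => by simpa using h P hP a ha hex i hi) hM hθ hne
  have hkod : (∀ j, 2 ≤ W j) → ((big W : ℕ) : WithBot ℕ) ≤ kodairaDim y (d + e) 0 := fun hws =>
    cyc_nv hy.1 hy.2.1 hy.2.2 (acl_closed ((imageField V : IntermediateField ℂ K) : Set K)) hc
      (by omega) (key hws).1
  have h0 : (0 : WithBot ℕ) ≤ ((big W : ℕ) : WithBot ℕ) := by exact_mod_cast Nat.zero_le _
  have hws : PseudoEffective y (d + e) → ∀ j, 2 ≤ W j := by
    rintro ⟨A', hA', hpe⟩
    by_contra hcon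
    push Not at hcon
    obtain ⟨j0, hj0⟩ := hcon
    obtain ⟨m0, hm0⟩ := cyc_zero hy.1 hy.2.1 hy.2.2
      (acl_closed ((imageField V : IntermediateField ℂ K) : Set K)) hc hA'
      (j0 := j0) (by rw [hwW]; exact hj0)
    obtain ⟨m', hm', ω, hω, hω0⟩ := hpe m0
    exact hω0 (hm0 m' hm' ω hω)
  refine ⟨⟨⟨fun h1 => h0.trans (hkod (hws h1)), psef_of⟩,
    ⟨fun h1 => hws (psef_of h1), fun h1 => h0.trans (hkod h1)⟩,
    fun h1 => hkod (hws (psef_of h1))⟩, fun h1 h2 h3 => ?_⟩
  have h4 : ∀ j, 2 ≤ W j := hws (psef_of h3)
  refine hc2 (d + big W) h4 ?_ ((key h4).2 h1 h2)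
  have h5 : (Finset.univ.filter fun j => 2 < W j).card +
      (Finset.univ.filter fun j => W j = 2).card = e := by
    rw [← Finset.card_union_of_disjoint]
    · rw [← Finset.filter_or]
      rw [Finset.filter_true_of_mem]
      · simp
      · intro j _
        rcases lt_or_eq_of_le (h4 j) with h6 | h6
        · exact Or.inl h6
        · exact Or.inr h6.symm
    · rw [Finset.disjoint_left]
      intro j h6 h7
      have h8 := (Finset.mem_filter.1 h6).2
      have h9 := (Finset.mem_filter.1 h7).2
      rw [h9] at h8
      exact lt_irrefl _ h8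
  unfold big
  omega

end Pool.Agent.Results.MP_813db1_ag.PowerfulMembers
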